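import Pool.Agent.H753R3.SC.Stmts

set_option autoImplicit false

namespace Pool.Agent.H233R3.SC

open Set

theorem taskA : Pool.Agent.H753R3.SC.TaskA := by
  intro P _ _ _ hdc K V hK hV hKV z hz
  by_contra hne
  push Not at hne
  have hVo := (Topology.IsScott.isOpen_iff_isUpperSet_and_dirSupInaccOn (D := univ)).1 hV
  let O : ℕ → Set P := fun q => {x | x ∈ V ∧ ∀ n, q ≤ n → ¬ x ≤ z n}
  have hO : ∀ q, IsOpen (O q) := by
    intro q
    rw [Topology.IsScott.isOpen_iff_isUpperSet_and_dirSupInaccOn (D := univ)]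
    refine ⟨?_, ?_⟩
    · rintro x y hxy ⟨hxV, hx⟩
      exact ⟨hVo.1 hxy hxV, fun n hn hy => hx n hn (hxy.trans hy)⟩
    · intro D hDu hDne hDdir d hd hdO
      obtain ⟨hdV, hdz⟩ := hdO
      obtain ⟨d0, hd0D, hd0V⟩ := hVo.2 hDu hDne hDdir hd hdV
      obtain ⟨N, hN⟩ := hne d0 hd0V
      by_contra hemp
      have hall : ∀ x ∈ D, d0 ≤ x → ∃ n, q ≤ n ∧ n < N ∧ x ≤ z n := by
        intro x hxD hx0
        by_contra hno
        push Not at hno
        apply hemp
        refine ⟨x, hxD, hVo.1 hx0 hd0V, fun n hn hxz => ?_⟩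
        by_cases hnN : n < N
        · exact hno n hn hnN hxz
        · exact hN n (not_lt.1 hnN) (hx0.trans hxz)
      have hex : ∃ n, q ≤ n ∧ ∀ x ∈ D, d0 ≤ x → x ≤ z n := by
        by_contra hno
        push Not at hno
        have hind : ∀ M : ℕ, ∃ y ∈ D, d0 ≤ y ∧ ∀ n < M, q ≤ n → ¬ y ≤ z n := by
          intro M
          induction M with
          | zero => exact ⟨d0, hd0D, le_rfl, fun n hn => absurd hn (Nat.not_lt_zero n)⟩
          | succ M ih =>
            obtain ⟨y, hyD, hy0, hy⟩ := ih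
            by_cases hqM : q ≤ M
            · obtain ⟨x, hxD, hx0, hx⟩ := hno M hqM
              obtain ⟨w, hwD, hyw, hxw⟩ := hDdir y hyD x hxD
              refine ⟨w, hwD, hy0.trans hyw, fun n hn hqn hwz => ?_⟩
              rcases Nat.lt_succ_iff_lt_or_eq.1 hn with h | h
              · exact hy n h hqn (hyw.trans hwz)
              · subst h
                exact hx (hxw.trans hwz)
            · refine ⟨y, hyD, hy0, fun n hn hqn => ?_⟩
              exact absurd (hqn.trans (Nat.lt_succ_iff.1 hn)) hqM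
        obtain ⟨y, hyD, hy0, hy⟩ := hind N
        obtain ⟨n, hqn, hnN, hyz⟩ := hall y hyD hy0
        exact hy n hnN hqn hyz
      obtain ⟨n, hqn, hn⟩ := hex
      refine hdz n hqn (hd.2 ?_)
      intro x hxD
      obtain ⟨w, hwD, hxw, h0w⟩ := hDdir x hxD d0 hd0D
      exact hxw.trans (hn w hwD h0w)
  have hcov : K ⊆ ⋃ q, O q := by
    intro x hx
    obtain ⟨N, hN⟩ := hne x (hKV hx)
    exact mem_iUnion.2 ⟨N, hKV hx, hN⟩
  have hdir : Directed (· ⊆ ·) O := by
    intro a b
    refine ⟨max a b, ?_, ?_⟩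
    · rintro x ⟨hx1, hx2⟩
      exact ⟨hx1, fun n hn => hx2 n ((le_max_left a b).trans hn)⟩
    · rintro x ⟨hx1, hx2⟩
      exact ⟨hx1, fun n hn => hx2 n ((le_max_right a b).trans hn)⟩
  obtain ⟨q, hq⟩ := hK.elim_directed_cover O hO hcov hdir
  exact (hq (hz q)).2 q le_rfl le_rfl

end Pool.Agent.H233R3.SC
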